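import Pool.Agent.Y738.PE.Stm2
import Pool.Agent.Y297.PE.Factor

set_option autoImplicit false

/-! # The sum over the values factorizes over the sub-blocks -/

open scoped BigOperators ComplexConjugate Classical

noncomputable section

namespace Pool.Agent.Y378.PE

open Pool.Agent.Y738.PE Pool.Agent.Y297.PE

variable {L m M : ℕ} [NeZero L] [NeZero m]

/-- the site is in a sub-block -/
def IsB (θ : Til (m * M + 1) L) (v : Site L) : Prop := Blk m M (θ.1 v.1).2 (θ.2 v.2).2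

/-- the site is the corner of a sub-block -/
def IsC (θ : Til (m * M + 1) L) (v : Site L) : Prop :=
  IsB θ v ∧ (((θ.1 v.1).2 : ℕ) - 1) % m = 0 ∧ (((θ.2 v.2).2 : ℕ) - 1) % m = 0

/-- the site at a position -/
def pt (c : Site L) (p : Site m) : Site L :=
  (c.1 + ((p.1.val : ℕ) : ZMod L), c.2 + ((p.2.val : ℕ) : ZMod L))

/-- the corner of a site -/
def cr (θ : Til (m * M + 1) L) (v : Site L) : Site L :=
  (v.1 - (((((θ.1 v.1).2 : ℕ) - 1) % m : ℕ) : ZMod L),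
    v.2 - (((((θ.2 v.2).2 : ℕ) - 1) % m : ℕ) : ZMod L))

/-- the position of a site -/
def ps (θ : Til (m * M + 1) L) (v : Site L) : Site m :=
  ((((((θ.1 v.1).2 : ℕ) - 1) : ℕ) : ZMod m), (((((θ.2 v.2).2 : ℕ) - 1) : ℕ) : ZMod m))

lemma isC_form {θ : Til (m * M + 1) L} {c : Site L} (h : IsC θ c) : ∃ I J : ℕ, I < M ∧ J < M ∧
    I ≠ J ∧ ((θ.1 c.1).2 : ℕ) = m * I + 1 ∧ ((θ.2 c.2).2 : ℕ) = m * J + 1 := by
  obtain ⟨⟨b1, b2, b3, b4, b5⟩, h1, h2⟩ := h
  have hm : 0 < m := Nat.pos_of_ne_zero (NeZero.ne m)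
  obtain ⟨e1, e2⟩ := exI hm b1 b2
  obtain ⟨e3, e4⟩ := exI hm b3 b4
  rw [h1] at e2
  rw [h2] at e4
  exact ⟨_, _, e1, e3, b5, e2, e4⟩

lemma lab_pt {θ : Til (m * M + 1) L} (hθ : Valid θ) {c : Site L} (h : IsC θ c) (p : Site m) :
    ∃ I J : ℕ, I < M ∧ J < M ∧ I ≠ J ∧ ((θ.1 (pt c p).1).2 : ℕ) = m * I + 1 + p.1.val ∧
      ((θ.2 (pt c p).2).2 : ℕ) = m * J + 1 + p.2.val := by
  obtain ⟨I, J, hI, hJ, hIJ, h1, h2⟩ := isC_form h
  exact ⟨I, J, hI, hJ, hIJ, corner hθ.1 c.1 I hI h1 _ (ZMod.val_lt _),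
    corner hθ.2 c.2 J hJ h2 _ (ZMod.val_lt _)⟩

lemma isB_pt {θ : Til (m * M + 1) L} (hθ : Valid θ) {c : Site L} (h : IsC θ c) (p : Site m) :
    IsB θ (pt c p) := by
  obtain ⟨I, J, hI, hJ, hIJ, h1, h2⟩ := lab_pt hθ h p
  unfold IsB
  rw [h1, h2]
  exact blk_pos hI hJ hIJ (ZMod.val_lt _) (ZMod.val_lt _)

lemma cr_pt {θ : Til (m * M + 1) L} (hθ : Valid θ) {c : Site L} (h : IsC θ c) (p : Site m) :
    cr θ (pt c p) = c := by
  obtain ⟨I, J, hI, hJ, hIJ, h1, h2⟩ := lab_pt hθ h p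
  unfold cr
  rw [h1, h2, mod_eq (ZMod.val_lt _), mod_eq (ZMod.val_lt _)]
  unfold pt
  ext
  · simp
  · simp

lemma cast_pos {I : ℕ} (x : ZMod m) : ((m * I + 1 + x.val - 1 : ℕ) : ZMod m) = x := by
  have h : m * I + 1 + x.val - 1 = m * I + x.val := by omega
  rw [h]
  push_cast
  rw [ZMod.natCast_self, zero_mul, zero_add, ZMod.natCast_zmod_val]

lemma ps_pt {θ : Til (m * M + 1) L} (hθ : Valid θ) {c : Site L} (h : IsC θ c) (p : Site m) :
    ps θ (pt c p) = p := by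
  obtain ⟨I, J, hI, hJ, hIJ, h1, h2⟩ := lab_pt hθ h p
  unfold ps
  rw [h1, h2, cast_pos, cast_pos]

lemma isC_cr {θ : Til (m * M + 1) L} (hθ : Valid θ) {v : Site L} (h : IsB θ v) :
    IsC θ (cr θ v) := by
  obtain ⟨b1, b2, b3, b4, b5⟩ := h
  have hm : 0 < m := Nat.pos_of_ne_zero (NeZero.ne m)
  obtain ⟨e1, e2⟩ := exI hm b1 b2
  obtain ⟨e3, e4⟩ := exI hm b3 b4
  have c1 : ((θ.1 (cr θ v).1).2 : ℕ) = m * ((((θ.1 v.1).2 : ℕ) - 1) / m) + 1 := by
    have := bwd hθ.1 v.1 _ rfl ((((θ.1 v.1).2 : ℕ) - 1) % m) (by omega)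
    unfold cr
    simp only
    omega
  have c2 : ((θ.2 (cr θ v).2).2 : ℕ) = m * ((((θ.2 v.2).2 : ℕ) - 1) / m) + 1 := by
    have := bwd hθ.2 v.2 _ rfl ((((θ.2 v.2).2 : ℕ) - 1) % m) (by omega)
    unfold cr
    simp only
    omega
  refine ⟨?_, ?_, ?_⟩
  · unfold IsB
    rw [c1, c2]
    exact blk_pos (t := 0) (u := 0) e1 e3 b5 hm hm
  · rw [c1]
    exact mod_eq (t := 0) hm
  · rw [c2]
    exact mod_eq (t := 0) hm

lemma pt_cr (θ : Til (m * M + 1) L) (v : Site L) : pt (cr θ v) (ps θ v) = v := by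
  unfold pt cr ps
  simp only [ZMod.val_natCast]
  ext
  · simp
  · simp

/-- sites of sub-blocks -/
def eqB {θ : Til (m * M + 1) L} (hθ : Valid θ) :
    {c : Site L // IsC θ c} × Site m ≃ {v : Site L // IsB θ v} where
  toFun x := ⟨pt x.1.1 x.2, isB_pt hθ x.1.2 x.2⟩
  invFun v := (⟨cr θ v.1, isC_cr hθ v.2⟩, ps θ v.1)
  left_inv := by
    rintro ⟨⟨c, hc⟩, p⟩
    ext1
    · exact Subtype.ext (cr_pt hθ hc p)
    · exact ps_pt hθ hc p
  right_inv := by
    rintro ⟨v, hv⟩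
    exact Subtype.ext (pt_cr θ v)

/-- functions on the sites -/
def eqY {θ : Til (m * M + 1) L} (hθ : Valid θ) (Y : Type) :
    (Site L → Y) ≃ ({c : Site L // IsC θ c} → Site m → Y) × ({v : Site L // ¬ IsB θ v} → Y) where
  toFun y := (fun c p => y (pt c.1 p), fun v => y v.1)
  invFun x := fun v => if h : IsB θ v then x.1 ⟨cr θ v, isC_cr hθ h⟩ (ps θ v) else x.2 ⟨v, h⟩
  left_inv := by
    intro y
    funext v
    by_cases h : IsB θ v
    · simp only [dif_pos h]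
      rw [pt_cr]
    · simp only [dif_neg h]
  right_inv := by
    rintro ⟨a, b⟩
    ext1
    · funext c p
      simp only [dif_pos (isB_pt hθ c.2 p)]
      have h1 : (⟨cr θ (pt c.1 p), isC_cr hθ (isB_pt hθ c.2 p)⟩ : {c : Site L // IsC θ c}) = c :=
        Subtype.ext (cr_pt hθ c.2 p)
      rw [h1, ps_pt hθ c.2 p]
    · funext v
      simp only [dif_neg v.2]

lemma val_pred {x : ZMod m} (hx : x ≠ 0) : (x - 1).val = x.val - 1 := by
  have h0 : 0 < x.val := by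
    rcases Nat.eq_zero_or_pos x.val with h | h
    · exact absurd ((ZMod.val_eq_zero x).1 h) hx
    · exact h
  have h1 : x - 1 = ((x.val - 1 : ℕ) : ZMod m) := by
    rw [Nat.cast_sub h0, ZMod.natCast_zmod_val, Nat.cast_one]
  rw [h1, ZMod.val_cast_of_lt]
  have := ZMod.val_lt x
  omega

lemma pt_left (c : Site L) (p : Site m) (h : p.1 ≠ 0) :
    ((pt c p).1 - 1, (pt c p).2) = pt c (p.1 - 1, p.2) := by
  have h0 : 0 < p.1.val := by
    rcases Nat.eq_zero_or_pos p.1.val with h' | h'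
    · exact absurd ((ZMod.val_eq_zero p.1).1 h') h
    · exact h'
  unfold pt
  simp only
  rw [val_pred h, Nat.cast_sub h0, Nat.cast_one]
  ext
  · simp only
    ring
  · rfl

lemma pt_down (c : Site L) (p : Site m) (h : p.2 ≠ 0) :
    ((pt c p).1, (pt c p).2 - 1) = pt c (p.1, p.2 - 1) := by
  have h0 : 0 < p.2.val := by
    rcases Nat.eq_zero_or_pos p.2.val with h' | h'
    · exact absurd ((ZMod.val_eq_zero p.2).1 h') h
    · exact h'
  unfold pt
  simp only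
  rw [val_pred h, Nat.cast_sub h0, Nat.cast_one]
  ext
  · rfl
  · simp only
    ring

/-- the weight at a fixed site -/
def wf {d : ℕ} {Y : Type} (θ : Til (m * M + 1) L) (y0 : Y) (s : Conf d L) (v : Site L) (y : Y) :
    ℂ :=
  if ((θ.1 v.1).2 : ℕ) = 0 ∨ ((θ.2 v.2).2 : ℕ) = 0 then (if (s v : ℕ) = 1 ∧ y = y0 then 1 else 0)
  else (if (s v : ℕ) = 0 ∧ y = y0 then 1 else 0)

lemma sum_wf {d : ℕ} {Y : Type} [Fintype Y] (θ : Til (m * M + 1) L) (y0 : Y) (s : Conf d L)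
    (v : Site L) (hv : ¬ IsB θ v) (Φ : BConf d m → ℂ) :
    ∑ y, wf θ y0 s v y = fac m M Φ (θ.1 v.1) (θ.2 v.2) s v := by
  unfold wf fac
  by_cases h : ((θ.1 v.1).2 : ℕ) = 0 ∨ ((θ.2 v.2).2 : ℕ) = 0
  · simp only [if_pos h]
    by_cases h1 : (s v : ℕ) = 1
    · simp [h1]
    · simp [h1]
  · have hv' : ¬ Blk m M (θ.1 v.1).2 (θ.2 v.2).2 := hv
    simp only [if_neg h, if_neg hv']
    by_cases h1 : (s v : ℕ) = 0
    · simp [h1]
    · simp [h1]

/-- **the sum over the values factorizes** -/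
theorem inner : StmInner := by
  intro d m M L _ _ hmL Y _ u y0 hu1 hu2 θ hθ s
  have hm : 0 < m := Nat.pos_of_ne_zero (NeZero.ne m)
  obtain ⟨H, hH⟩ : ∃ H : Site L → (Site m → Y) → ℂ, H = fun c g => ∏ p : Site m,
    u p (s (pt c p)) (g (p.1 - 1, p.2)) (g p) (g (p.1, p.2 - 1)) := ⟨_, rfl⟩
  obtain ⟨Φ, hΦ⟩ : ∃ Φ : BConf d m → ℂ, Φ = fun σ : BConf d m => ∑ g : Site m → Y,
    ∏ p : Site m, u p (glue σ p) (g (p.1 - 1, p.2)) (g p) (g (p.1, p.2 - 1)) := ⟨_, rfl⟩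
  rw [← hΦ]
  have hΦH : ∀ c : Site L, Φ (box m s c) = ∑ g, H c g := by
    intro c
    rw [hΦ, hH]
    rfl
  -- the product for a given function
  have key : ∀ y : Site L → Y, (∏ v : Site L,
      wB m M u y0 (θ.1 v.1) (θ.2 v.2) (s v) (y (v.1 - 1, v.2)) (y v) (y (v.1, v.2 - 1))) =
      (∏ c : {c : Site L // IsC θ c}, H c.1 ((eqY hθ Y y).1 c)) *
        ∏ v : {v : Site L // ¬ IsB θ v}, wf θ y0 s v.1 ((eqY hθ Y y).2 v) := by
    intro y
    rw [← Fintype.prod_subtype_mul_prod_subtype (IsB θ)]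
    congr 1
    · rw [← Equiv.prod_comp (eqB hθ), Fintype.prod_prod_type]
      refine Finset.prod_congr rfl fun c _ => ?_
      rw [hH]
      simp only
      refine Finset.prod_congr rfl fun p _ => ?_
      obtain ⟨I, J, hI, hJ, hIJ, h1, h2⟩ := lab_pt hθ c.2 p
      have hb := isB_pt hθ c.2 p
      have hv : ((eqB hθ (c, p)) : Site L) = pt c.1 p := rfl
      rw [hv]
      have e1 : (eqY hθ Y y).1 c = fun p => y (pt c.1 p) := rfl
      rw [e1]
      simp only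
      unfold wB
      rw [if_neg (by rw [h1, h2]; omega), if_pos (by exact hb), h1, h2, cast_pos, cast_pos]
      have a1 : u (p.1, p.2) (s (pt c.1 p)) (y ((pt c.1 p).1 - 1, (pt c.1 p).2)) (y (pt c.1 p))
          (y ((pt c.1 p).1, (pt c.1 p).2 - 1)) = u p (s (pt c.1 p)) (y (pt c.1 (p.1 - 1, p.2)))
          (y (pt c.1 p)) (y ((pt c.1 p).1, (pt c.1 p).2 - 1)) := by
        by_cases hp : p.1 = 0
        · exact hu1 p _ _ _ _ _ hp
        · rw [pt_left c.1 p hp]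
      rw [a1]
      by_cases hp : p.2 = 0
      · exact hu2 p _ _ _ _ _ hp
      · rw [pt_down c.1 p hp]
    · refine Finset.prod_congr rfl fun v _ => ?_
      have hv' : ¬ Blk m M (θ.1 v.1.1).2 (θ.2 v.1.2).2 := v.2
      have e1 : (eqY hθ Y y).2 v = y v.1 := rfl
      rw [e1]
      unfold wB wf
      by_cases h : ((θ.1 v.1.1).2 : ℕ) = 0 ∨ ((θ.2 v.1.2).2 : ℕ) = 0
      · rw [if_pos h, if_pos h]
      · rw [if_neg h, if_neg h, if_neg hv']
  rw [Finset.sum_congr rfl fun y _ => key y]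
  rw [Equiv.sum_comp (eqY hθ Y) (fun x => (∏ c : {c : Site L // IsC θ c}, H c.1 (x.1 c)) *
        ∏ v : {v : Site L // ¬ IsB θ v}, wf θ y0 s v.1 (x.2 v))]
  rw [Fintype.sum_prod_type]
  simp only
  rw [← Finset.sum_mul_sum]
  have s1 : ∑ a : {c : Site L // IsC θ c} → Site m → Y, ∏ c, H c.1 (a c) =
      ∏ c : {c : Site L // IsC θ c}, ∑ g, H c.1 g := by
    rw [Finset.prod_univ_sum, Fintype.piFinset_univ]
  have s2 : ∑ b : {v : Site L // ¬ IsB θ v} → Y, ∏ v, wf θ y0 s v.1 (b v) =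
      ∏ v : {v : Site L // ¬ IsB θ v}, ∑ y, wf θ y0 s v.1 y := by
    rw [Finset.prod_univ_sum, Fintype.piFinset_univ]
  rw [s1, s2]
  unfold glob
  rw [← Fintype.prod_subtype_mul_prod_subtype (IsB θ)]
  congr 1
  · rw [← Equiv.prod_comp (eqB hθ), Fintype.prod_prod_type]
    refine Finset.prod_congr rfl fun c _ => ?_
    have hc0 : pt c.1 (0 : Site m) = c.1 := by
      unfold pt
      ext
      · simp
      · simp
    rw [Finset.prod_eq_single (0 : Site m)]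
    · have hv : ((eqB hθ (c, (0 : Site m))) : Site L) = c.1 := hc0
      rw [hv, ← hΦH]
      obtain ⟨I, J, hI, hJ, hIJ, h1, h2⟩ := isC_form c.2
      have hb : Blk m M (θ.1 c.1.1).2 (θ.2 c.1.2).2 := c.2.1
      unfold fac
      rw [if_neg (by rw [h1, h2]; omega), if_pos hb, if_pos c.2.2]
    · intro p _ hp
      have hv : ((eqB hθ (c, p)) : Site L) = pt c.1 p := rfl
      rw [hv]
      obtain ⟨I, J, hI, hJ, hIJ, h1, h2⟩ := lab_pt hθ c.2 p
      have hb : Blk m M (θ.1 (pt c.1 p).1).2 (θ.2 (pt c.1 p).2).2 := isB_pt hθ c.2 p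
      unfold fac
      rw [if_neg (by rw [h1, h2]; omega), if_pos hb, if_neg]
      rw [h1, h2, mod_eq (ZMod.val_lt _), mod_eq (ZMod.val_lt _)]
      rintro ⟨k1, k2⟩
      apply hp
      ext
      · exact (ZMod.val_eq_zero p.1).1 k1
      · exact (ZMod.val_eq_zero p.2).1 k2
    · intro h
      exact absurd (Finset.mem_univ _) h
  · refine Finset.prod_congr rfl fun v _ => ?_
    exact sum_wf θ y0 s v.1 v.2 Φ

end Pool.Agent.Y378.PE
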